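import Mathlib

namespace Pool.Agent.Results.MP_6d14ae_al.CoprimeCycle

/-- `(X, op)` is a cycle set: left multiplications are bijections and the cycle set identity holds. -/
def IsCycleSet {X : Type} (op : X → X → X) : Prop :=
  (∀ x, Function.Bijective (op x)) ∧
    ∀ x y z, op (op x y) (op x z) = op (op y x) (op y z)

/-- `X = Y ⊔ Z` with `Y, Z` nonempty, `Y · Z ⊆ Z` and `Z · Y ⊆ Y`. -/
def Decomposable {X : Type} (op : X → X → X) : Prop :=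
  ∃ Y Z : Set X, Y.Nonempty ∧ Z.Nonempty ∧ Disjoint Y Z ∧ Y ∪ Z = Set.univ ∧
    (∀ y ∈ Y, ∀ z ∈ Z, op y z ∈ Z) ∧ (∀ z ∈ Z, ∀ y ∈ Y, op z y ∈ Y)

/-- The permutation `f` has a cycle of length `k`, `k ≥ 2`: some point has least period `k`. -/
def HasCycleOfLength {X : Type} (f : X → X) (k : ℕ) : Prop :=
  2 ≤ k ∧ ∃ y, Function.minimalPeriod f y = k

def S : Fin 16 → Fin 16 → Fin 16 :=
  ![![0, 3, 1, 2, 13, 14, 12, 15, 6, 5, 7, 4, 11, 8, 10, 9],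
    ![12, 15, 13, 14, 1, 2, 0, 3, 10, 9, 11, 8, 7, 4, 6, 5],
    ![4, 7, 5, 6, 9, 10, 8, 11, 2, 1, 3, 0, 15, 12, 14, 13],
    ![8, 11, 9, 10, 5, 6, 4, 7, 14, 13, 15, 12, 3, 0, 2, 1],
    ![1, 2, 0, 3, 12, 15, 13, 14, 7, 4, 6, 5, 10, 9, 11, 8],
    ![13, 14, 12, 15, 0, 3, 1, 2, 11, 8, 10, 9, 6, 5, 7, 4],
    ![5, 6, 4, 7, 8, 11, 9, 10, 3, 0, 2, 1, 14, 13, 15, 12],
    ![9, 10, 8, 11, 4, 7, 5, 6, 15, 12, 14, 13, 2, 1, 3, 0],
    ![2, 1, 3, 0, 15, 12, 14, 13, 4, 7, 5, 6, 9, 10, 8, 11],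
    ![14, 13, 15, 12, 3, 0, 2, 1, 8, 11, 9, 10, 5, 6, 4, 7],
    ![6, 5, 7, 4, 11, 8, 10, 9, 0, 3, 1, 2, 13, 14, 12, 15],
    ![10, 9, 11, 8, 7, 4, 6, 5, 12, 15, 13, 14, 1, 2, 0, 3],
    ![3, 0, 2, 1, 14, 13, 15, 12, 5, 6, 4, 7, 8, 11, 9, 10],
    ![15, 12, 14, 13, 2, 1, 3, 0, 9, 10, 8, 11, 4, 7, 5, 6],
    ![7, 4, 6, 5, 10, 9, 11, 8, 1, 2, 0, 3, 12, 15, 13, 14],
    ![11, 8, 10, 9, 6, 5, 7, 4, 13, 14, 12, 15, 0, 3, 1, 2]]

lemma S_inj : ∀ x y z : Fin 16, S x y = S x z → y = z := by decide +kernel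

lemma S_id : ∀ x y z : Fin 16, S (S x y) (S x z) = S (S y x) (S y z) := by decide +kernel

lemma S_trans : ∀ y z : Fin 16, ∃ a b, S a (S b z) = y := by decide +kernel

lemma preserve {X : Type} [Finite X] (f : X → X) (hf : Function.Injective f) (Y Z : Set X)
    (hd : Disjoint Y Z) (hu : Y ∪ Z = Set.univ) (hZ : ∀ z ∈ Z, f z ∈ Z) :
    ∀ y ∈ Y, f y ∈ Y := by
  intro y hy
  have hm : Set.MapsTo f Z Z := hZ
  have hb : Set.BijOn f Z Z := (Set.toFinite Z).injOn_iff_bijOn_of_mapsTo hm |>.1 hf.injOn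
  have : f y ∈ Y ∪ Z := by rw [hu]; trivial
  rcases this with h | h
  · exact h
  · obtain ⟨z, hz, hzy⟩ := hb.surjOn h
    have : z = y := hf hzy
    subst this
    exact absurd hz (Set.disjoint_left.1 hd hy)

theorem result : ∃ (X : Type) (_ : Fintype X) (op : X → X → X),
    IsCycleSet op ∧ ¬ Decomposable op ∧
      ∃ (x : X) (k : ℕ), HasCycleOfLength (op x) k ∧ Nat.Coprime k (Fintype.card X) := by
  have hinj : ∀ x, Function.Injective (S x) := fun x y z h => S_inj x y z h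
  refine ⟨Fin 16, inferInstance, S, ⟨fun x => Finite.injective_iff_bijective.1 (hinj x), S_id⟩,
    ?_, 0, 3, ⟨by norm_num, 1, ?_⟩, by simp; norm_num⟩
  · rintro ⟨Y, Z, ⟨y, hy⟩, ⟨z, hz⟩, hd, hu, hYZ, hZY⟩
    have hall : ∀ a, ∀ w ∈ Z, S a w ∈ Z := by
      intro a
      have ha : a ∈ Y ∪ Z := by rw [hu]; trivial
      rcases ha with ha | ha
      · exact hYZ a ha
      · exact preserve (S a) (hinj a) Z Y hd.symm (by rw [Set.union_comm, hu]) (hZY a ha)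
    obtain ⟨a, b, hab⟩ := S_trans y z
    have : y ∈ Z := hab ▸ hall a _ (hall b z hz)
    exact Set.disjoint_left.1 hd hy this
  · haveI : Fact (Nat.Prime 3) := ⟨by norm_num⟩
    apply Function.minimalPeriod_eq_prime
    · show (S 0)^[3] 1 = 1
      decide +kernel
    · show ¬ (S 0 1 = 1)
      decide +kernel

end Pool.Agent.Results.MP_6d14ae_al.CoprimeCycle
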